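import Pool.Agent.Results.MP_0e6b5f_nt.RandomOrbits
import Pool.Agent.U569.APL.Fam

set_option autoImplicit false

/-!
# MP_0e6b5f_nt: the periodic points of Hénon maps with coefficients formed from arbitrary sets

For a number field `K` with an integral basis, a vector of `(d + 2) m` integers gives `c_0, …, c_(d+1) ∈ O_K` and, for
`d ≥ 2`, the Hénon maps `f(x, y) = (y, φ(y) - δ x)`, `φ = (c_1 + c_2 y + … + c_(d+1) y ^ d) / c_0`. Let `D ≠ 0` in `O_K`.
The vector is not `Exceptional` if for ALL `δ ∈ O_K[1/D]` all the periodic points of the map over the algebraic closure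
have degrees over `K` which are divisible by `d` (so that there are none with `[K(P) : K] < d`).

Let a sequence (`j = 0, 1, 2, …`) of families of integral vectors with `r` coordinates be given. The vectors of the `j`-th
family are `c₀ + y`, `c₀` an arbitrary integral vector (depending on `j`, of any size) and `y` one of the following
vectors (represented by `0, …, q - 1`):

* `y` in any family of vectors modulo some `q` (depending on `j`), whose nontrivial Fourier coefficients are at most
  `1 / (Z (42 + 3 log q) ^ r)`, where `Z → ∞`, `Z ≤ q`;
* `β(x, z) + u(x) + w(z)` modulo a prime `P → ∞`, where `β : k ^ a × k ^ b → k ^ r` is bilinear, the nontrivial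
  combinations of its coordinates have rank at least `ρ`, `x` and `z` are in ARBITRARY sets `E` and `F` with
  `|E| |F| ≥ P ^ (a + b - ρ + ε)`, `u` and `w` are arbitrary functions (for `ε > 0` fixed);
* the same for `β(x, z) = x z`, `x` and `z` in ARBITRARY subsets of the field of `P ^ r` elements,
  `|E| |F| ≥ P ^ (r + ε)`;
* polynomials in `k` variables of degree at most `P ^ (ε / 4)`, all nontrivial combinations of which have a monomial with
  at least two variables, plus arbitrary functions of the single variables, on products of `k` ARBITRARY sets of at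
  least `P ^ (1 / 2 + ε)` residues;
* polynomials in one variable of degree at most `P ^ (ε / 4)`, no nontrivial combination of which is constant, on any
  subgroup of the multiplicative group modulo `P` with at least `P ^ (1 / 2 + ε)` elements.

**Theorem.** There is a set `E j` of exceptions in the `j`-th family, `|E j| = o(size)`, such that for ALL number fields
`K`, ALL integral bases of `K`, ALL `d ≥ 2`, ALL `D ≠ 0` and ALL choices of `(d + 2) m` different coordinates, for large
`j` no vector of the `j`-th family outside of `E j` is exceptional.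

New: the families, and that one small set of exceptions serves for all fields, bases, degrees and `D`. The exceptional
sets for given structure constants, `d` and bound are pronull (starting library `N681.HO`); such sets contain few
members of the families by the theorem of the starting library `N384.VF` on vectors of residues; the estimates of the
Fourier coefficients on arbitrary sets are in `U569/APL`.
-/

namespace Pool.Agent.Results.MP_0e6b5f_nt.ArbitrarySets

open NumberField Filter
open Pool.Agent.Results.MP_0e6b5f_nt.PeriodicDegrees (Exceptional)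
open Pool.Agent.Results.MP_0e6b5f_nt.RandomOrbits (vector not_exceptional)
open Pool.Agent.N24.RW (ProNull crit clo)
open Pool.Agent.U569.APL

/-- **The degrees of the periodic points of Hénon maps with coefficients formed from arbitrary sets.** -/
theorem result (ι : Type) [Fintype ι] [Nonempty ι] :
    (∀ (τ : ℕ → Type) (s : ∀ j, Finset (τ j)) (v : ∀ j, τ j → ι → ℤ), FlatFamilies s v →
      ∃ E : ∀ j, Finset (τ j), Small s E ∧
        ∀ (K : Type) [Field K] [NumberField K] (m : ℕ) (ω : Module.Basis (Fin m) ℤ (𝓞 K)) (d : ℕ), 2 ≤ d →
          ∀ (D : 𝓞 K), D ≠ 0 → ∀ f : Fin (d + 2) × Fin m → ι, Function.Injective f →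
            Outside s E v fun c => vector ω d (fun q => c (f q)) ∉ Exceptional.{0, 0} K D d) ∧
    Examples ι := by
  classical
  refine ⟨fun τ s v hs => ?_, examples _⟩
  obtain ⟨E, hE, h2⟩ := flat_diag hs
    (fun x : (Σ cd : (Σ m : ℕ, (Fin m × Fin m × Fin m → ℤ)), Σ d : ℕ, ℕ × (Fin (d + 2) × Fin cd.1 → ι)) =>
      {c : ι → ℤ | 2 ≤ x.2.1 ∧ Function.Injective x.2.2.2 ∧
        c ∈ Pool.Agent.N681.HO.Bs x.1 x.2.1 x.2.2.1 x.2.2.2}) (by
      rintro ⟨cd, d, M, f⟩
      by_cases h : 2 ≤ d ∧ Function.Injective f
      · refine (clo _).1 _ _ ?_ (Pool.Agent.N681.HO.pronull_Bs crit clo cd d M h.1 f h.2)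
        intro c hc
        exact hc.2.2
      · refine (clo _).1 _ _ ?_ ((clo _).2.2.1 inferInstance ∅ Set.finite_empty)
        intro c hc
        exact absurd ⟨hc.1, hc.2.1⟩ h)
  refine ⟨E, hE, fun K _ _ m ω d hd D hD f hf => ?_⟩
  have h1 := h2 ⟨⟨m, Pool.Agent.N681.HO.code ω⟩, d, (Algebra.norm ℤ D).natAbs, f⟩
  filter_upwards [h1] with j hj i hi hi2 hc
  exact hj i hi hi2 ⟨hd, hf, ⟨K, inferInstance, inferInstance, ω, rfl, fun hg => not_exceptional hd hD _ hg hc⟩⟩

end Pool.Agent.Results.MP_0e6b5f_nt.ArbitrarySets
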