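import Pool.Agent.U46.Hen
import Pool.Agent.U46.Par4

/-!
# Hénon maps with a periodic point of bounded degree: the law for all convex regions of coefficients

Let `D ≥ 1` and `d ≥ d₀(D)`. Consider the generalized Hénon maps
`(x, y) ↦ (y, (c_0 + c_1 y + ... + c_d y^d - e x) / b)` of degree `d` with integral
`v = (b, e, c_0, ..., c_d)`, `b e c_d ≠ 0`. For a closed convex set `Ω` in the cube `[-1, 1] ^ (d + 3)`
we count the `v` in `H Ω` for which the map has a periodic point of degree at most `D` over `ℚ`.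

* There is a constant `C` which depends on `D` and `d` only, such that for ALL such `Ω` and all `H ≥ 1`
  this number is `(∑_{z ∈ ℚ} V(Ω, z)) H^(d + 2)` up to `C H^(d + 1)`; and for all sets `A` of rational
  numbers the number of the `v` in `H Ω` whose map has exactly one periodic point of degree at most `D`,
  and this point is a fixed point `(z, z)` with `z ∈ A`, is `(∑_{z ∈ A} V(Ω, z)) H^(d + 2)` up to
  `C H^(d + 1)`. Here `V(Ω, p / q)` is the volume of the set of all `(b, e, g)` with a real polynomial `g`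
  of degree less than `d` for which `b`, `e` and the coefficients of `(q X - p) g + (b + e) X` form a
  vector in `Ω`.
* If `Ω` contains in its interior a real vector `(b, e, c)` with `∑ c_i z^i = (b + e) z` for some `z ∈ ℚ`,
  then the sum is positive, and the law of the periodic point converges, uniformly for all sets of
  rational numbers, to the law with weights proportional to `V(Ω, z)`, with the error `O(1 / H)`.

So the joint law of the coefficient vector (divided by `H`) and the periodic point is explicit, with the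
error `O(1 / H)`; for small `Ω` this describes the rational periodic points of the Hénon maps near a given
real one. The starting file `FixedPointLimitLaw` treats the case that `Ω` is the whole cube and a single
point `z`, without a rate and with weights that are not explicit.
-/

set_option autoImplicit false

open MeasureTheory

namespace Pool.Agent.Results.MP_0e6b5f_nt.ConvexRegionsLaw

/-- the indices of `b`, `e` (`Sum.inl 0`, `Sum.inl 1`) and of `c_0, ..., c_d` (`Sum.inr i`) -/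
abbrev Index (d : ℕ) : Type := Fin 2 ⊕ Fin (d + 1)

/-- The map `(x, y) ↦ (y, (c_0 + c_1 y + ... + c_d y^d - e x) / b)` of the complex plane. -/
noncomputable def henon {d : ℕ} (v : Index d → ℤ) (P : ℂ × ℂ) : ℂ × ℂ :=
  (P.2, ((∑ i : Fin (d + 1), (v (Sum.inr i) : ℂ) * P.2 ^ (i : ℕ)) - v (Sum.inl 1) * P.1) /
    v (Sum.inl 0))

/-- The map is a generalized Hénon map of degree `d`: `b ≠ 0`, `e ≠ 0` and `c_d ≠ 0`. -/
def IsHenon {d : ℕ} (v : Index d → ℤ) : Prop :=
  v (Sum.inl 0) ≠ 0 ∧ v (Sum.inl 1) ≠ 0 ∧ v (Sum.inr (Fin.last d)) ≠ 0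

/-- `P` is a periodic point of degree at most `D` over `ℚ`: its coordinates lie in a number field of
degree at most `D`, and some iterate of the map fixes it. -/
def IsPeriodic {d : ℕ} (D : ℕ) (v : Index d → ℤ) (P : ℂ × ℂ) : Prop :=
  (∃ K : IntermediateField ℚ ℂ, FiniteDimensional ℚ K ∧ Module.finrank ℚ K ≤ D ∧
      P.1 ∈ K ∧ P.2 ∈ K) ∧ ∃ n : ℕ, 1 ≤ n ∧ (henon v)^[n] P = P

/-- the integral vectors in `H Ω` which give Hénon maps of degree `d` -/
def Maps {d : ℕ} (Ω : Set (Index d → ℝ)) (H : ℕ) : Set (Index d → ℤ) :=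
  {v | (fun i => (v i : ℝ) / H) ∈ Ω ∧ IsHenon v}

/-- the number of the maps in `H Ω` with a periodic point of degree at most `D` -/
noncomputable def total {d : ℕ} (D : ℕ) (Ω : Set (Index d → ℝ)) (H : ℕ) : ℕ :=
  Set.ncard {v ∈ Maps Ω H | ∃ P, IsPeriodic D v P}

/-- the number of the maps in `H Ω` with exactly one periodic point of degree at most `D`, and this
point is a fixed point `(z, z)` with `z ∈ A` -/
noncomputable def number {d : ℕ} (D : ℕ) (Ω : Set (Index d → ℝ)) (A : Set ℚ) (H : ℕ) : ℕ :=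
  Set.ncard {v ∈ Maps Ω H | ∃ z ∈ A, henon v ((z : ℂ), (z : ℂ)) = ((z : ℂ), (z : ℂ)) ∧
    ∀ P, IsPeriodic D v P ↔ P = ((z : ℂ), (z : ℂ))}

/-- the real vector formed by `b = u (inl 0)`, `e = u (inl 1)` and the coefficients of
`(q X - p) g + (b + e) X`, where `z = p / q` in lowest terms and `g = ∑ u (inr j) X ^ j` -/
noncomputable def vec {d : ℕ} (z : ℚ) (u : Fin 2 ⊕ Fin d → ℝ) : Index d → ℝ :=
  Sum.elim (fun j => u (Sum.inl j)) fun i =>
    ((Polynomial.C (z.den : ℝ) * Polynomial.X - Polynomial.C (z.num : ℝ)) *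
      (∑ j : Fin d, Polynomial.C (u (Sum.inr j)) * Polynomial.X ^ (j : ℕ)) +
      Polynomial.C (u (Sum.inl 0) + u (Sum.inl 1)) * Polynomial.X).coeff i

/-- the weight `V(Ω, z)` -/
noncomputable def V {d : ℕ} (Ω : Set (Index d → ℝ)) (z : ℚ) : ℝ :=
  volume.real {u : Fin 2 ⊕ Fin d → ℝ | vec z u ∈ Ω}

open Pool.Agent.U46 Pool.Agent.U46.HN

lemma V_eq {d : ℕ} (Ω : Set (Index d → ℝ)) : V Ω = wz Ω := by
  funext z
  unfold V wz WV body
  congr 1
  ext u
  have h1 : vec z u = cv (z.num : ℝ) ((z.den : ℤ) : ℝ) u := by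
    funext o
    cases o with
    | inl j => rfl
    | inr i =>
      rw [cv_poly, Fin.sum_univ_two]
      rfl
  rw [Set.mem_ofPred_eq, Set.mem_ofPred_eq, h1]

lemma total_eq {d : ℕ} (D : ℕ) (Ω : Set (Index d → ℝ)) (H : ℕ) : total D Ω H =
    Set.ncard {w : Fin 2 ⊕ Fin (d + 1) → ℤ | (fun o => (w o : ℝ) / H) ∈ Ω ∧
        (Pool.Agent.R414.EB.IsHen (tv w) ∧ ∃ P, Pool.Agent.R414.EF.Hn.Per D (tv w) P)} := by
  unfold total Maps
  congr 1
  ext w
  constructor
  · rintro ⟨⟨h1, h2⟩, h3⟩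
    exact ⟨h1, h2, h3⟩
  · rintro ⟨h1, h2, h3⟩
    exact ⟨⟨h1, h2⟩, h3⟩

lemma number_eq {d : ℕ} {D : ℕ} (hD : 1 ≤ D) (Ω : Set (Index d → ℝ)) (A : Set ℚ) (H : ℕ) :
    number D Ω A H =
    Set.ncard {w : Fin 2 ⊕ Fin (d + 1) → ℤ | (fun o => (w o : ℝ) / H) ∈ Ω ∧ ∃ z ∈ A, En D z w} := by
  unfold number Maps
  congr 1
  ext w
  constructor
  · rintro ⟨⟨h1, h2⟩, z, hz, h3, h4⟩
    exact ⟨h1, z, hz, h2, h3, fun P hP => (h4 P).1 hP⟩
  · rintro ⟨h1, z, hz, h2, h3, h4⟩
    refine ⟨⟨h1, h2⟩, z, hz, h3, fun P => ⟨fun hP => h4 P hP, fun hP => ?_⟩⟩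
    rw [hP]
    exact Pool.Agent.R414.EF.Hn.per_of_fix h2.1 (Pool.Agent.R414.EF.rat_deg hD z)
      ((Pool.Agent.R414.EF.Hn.fix_iff h2.1 _).mp h3).2

theorem result (D : ℕ) (hD : 1 ≤ D) : ∃ d₀ : ℕ, ∀ d, d₀ ≤ d →
    -- the numbers, uniformly for all convex regions and all sets of rational numbers
    (∃ C : ℝ, ∀ Ω : Set (Index d → ℝ), Convex ℝ Ω → IsClosed Ω → (∀ w ∈ Ω, ∀ i, |w i| ≤ 1) →
      ∀ H : ℕ, 1 ≤ H →
        |(total D Ω H : ℝ) - (∑' z, V Ω z) * (H : ℝ) ^ (d + 2)| ≤ C * (H : ℝ) ^ (d + 1) ∧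
        ∀ A : Set ℚ, |(number D Ω A H : ℝ) - (∑' z : A, V Ω z) * (H : ℝ) ^ (d + 2)| ≤
          C * (H : ℝ) ^ (d + 1)) ∧
    -- the law of the periodic point
    (∀ Ω : Set (Index d → ℝ), Convex ℝ Ω → IsClosed Ω → (∀ w ∈ Ω, ∀ i, |w i| ≤ 1) →
      (∃ w ∈ interior Ω, ∃ z : ℚ, ∑ i : Fin (d + 1), w (Sum.inr i) * (z : ℝ) ^ (i : ℕ) =
        (w (Sum.inl 0) + w (Sum.inl 1)) * z) →
      0 < ∑' z, V Ω z ∧ ∃ C : ℝ, ∀ H : ℕ, 1 ≤ H → ∀ A : Set ℚ,
        |(number D Ω A H : ℝ) / total D Ω H - (∑' z : A, V Ω z) / ∑' z, V Ω z| ≤ C / H) := by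
  obtain ⟨d₀, h₀⟩ := hen_law D hD
  refine ⟨d₀, fun d hd => ?_⟩
  obtain ⟨hd4, C, hC0, hC⟩ := h₀ d hd
  have hmain : ∀ Ω : Set (Index d → ℝ), Convex ℝ Ω → IsClosed Ω → (∀ w ∈ Ω, ∀ i, |w i| ≤ 1) →
      ∀ H : ℕ, 1 ≤ H →
        |(total D Ω H : ℝ) - (∑' z, V Ω z) * (H : ℝ) ^ (d + 2)| ≤ C * (H : ℝ) ^ (d + 1) ∧
        ∀ A : Set ℚ, |(number D Ω A H : ℝ) - (∑' z : A, V Ω z) * (H : ℝ) ^ (d + 2)| ≤
          C * (H : ℝ) ^ (d + 1) := by
    intro Ω hc hcl hb H hH
    obtain ⟨h1, h2⟩ := hC Ω hc hcl hb H hH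
    refine ⟨?_, fun A => ?_⟩
    · rw [total_eq, V_eq]
      exact h2
    · rw [number_eq hD, V_eq, _root_.tsum_subtype]
      exact h1 A
  refine ⟨⟨C, hmain⟩, fun Ω hc hcl hb ⟨w, hw, z, h0⟩ => ?_⟩
  have hsum : Summable (V Ω) := by
    rw [V_eq]
    exact wz_summable (by omega) hb
  have hpos : 0 < V Ω z := by
    rw [V_eq]
    refine wz_pos (by omega) hb hw ?_
    rw [h0, Fin.sum_univ_two]
  have hM : 0 < ∑' z, V Ω z := hsum.tsum_pos (fun z => measureReal_nonneg) z hpos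
  refine ⟨hM, 2 * C / ∑' z, V Ω z, fun H hH A => ?_⟩
  have hH0 : (0 : ℝ) < H := by exact_mod_cast hH
  obtain ⟨h1, h2⟩ := hmain Ω hc hcl hb H hH
  have hle : number D Ω A H ≤ total D Ω H := by
    unfold number total
    apply Set.ncard_le_ncard
    · rintro v ⟨hv, y, _, h3, h4⟩
      exact ⟨hv, _, (h4 _).2 rfl⟩
    · apply (Finset.finite_toSet (Fintype.piFinset fun _ : Index d => Finset.Icc (-(H : ℤ)) H)).subset
      rintro v ⟨⟨hv, _⟩, _⟩
      rw [Finset.mem_coe, Fintype.mem_piFinset]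
      intro o
      rw [Finset.mem_Icc, ← abs_le]
      have h3 := hb _ hv o
      rw [abs_div, abs_of_pos hH0, div_le_one hH0] at h3
      exact_mod_cast h3
  have h3 := h2 A
  rw [pow_succ (H : ℝ) (d + 1)] at h1 h3
  exact ratio_bound (Nat.cast_nonneg _) (by exact_mod_cast hle) hM (by positivity) hH0 h3 h1

end Pool.Agent.Results.MP_0e6b5f_nt.ConvexRegionsLaw
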