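import Pool.Agent.U965.ET.Hen
import Pool.Agent.U965.ET.Fun

/-!
# Hénon maps over fields with one place: periods independent of the degree of the map and of the field

Let `p` be a prime and let `K` be any field which embeds into an extension of `ℚ_p` of degree at most `D`
(`LocalDegreeLe K p D`): for example a number field of degree at most `D`, a function field of degree at
most `D` over a rational function field over `ℚ` in countably many variables, or, with `D = 1`, the field of
all totally `p`-adic numbers and its subfields. Only the one prime `p` is involved.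

Let `f (x, y) = (y, F (y) - δ x)` be a generalized Hénon map over `K` such that `F` is a composition of
affine polynomials, powers `X ^ m` with `m` prime to `bad p (D B)` and Dickson (Chebyshev) polynomials
`D_l (X, a)`, `a ∈ K`, `l` a prime not dividing `badDickson p (D B)`; the number of the factors and the
coefficients are arbitrary. For `p = 2`, `D = B = 1` the conditions are: `m` odd and `l ≥ 5`.

Theorem. All periodic points `P` of `f` over the algebraic closure with `[K (P) : K] ≤ B` are fixed by
the iterate `f ^ N` with the explicit number `N = period p (D B)`. It depends on `p` and `D B` only: neither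
on the degree `d` of `F` nor on the number of its factors nor on the degree of `K` over `ℚ`, which may be
infinite. There are at most `d ^ N` such points if `d ≥ 2`.

For `p = 2`, `D = B = 1` we have `N = 576`: the periods of the `K`-rational periodic points of all these maps
over all subfields `K` of `ℚ_2`, in particular over `ℚ`, divide `576`.

Proof. The field `K (P)` embeds into an extension of `ℚ_p` of degree at most `D B` and so has a discrete
place above `p` with residue degree and ramification index at most `D B` (`U965/ET`). At this place there is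
no cancellation in the Taylor expansions of `F`, and the local theorem on periodic sequences
`z_{n+1} + δ z_{n-1} = F (z_n)` (project UB of helper236 in the library, with parts by helpers 56, 152, 374,
491, 514, 578, 615, 624, 654, 907) applies.
-/

set_option autoImplicit false

open Polynomial

namespace Pool.Agent.Results.MP_0e6b5f_nt.HenonOnePlace

/-- The field `K` embeds into an extension of `ℚ_p` of degree at most `D`. -/
def LocalDegreeLe (K : Type) [Field K] (p : ℕ) [Fact p.Prime] (D : ℕ) : Prop :=
  ∃ (E : Type) (_ : Field E) (_ : Algebra ℚ_[p] E),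
    FiniteDimensional ℚ_[p] E ∧ Module.finrank ℚ_[p] E ≤ D ∧ Nonempty (K →+* E)

/-- The product of `p` and of all `p ^ f - 1` with `1 ≤ f ≤ M`. -/
def bad (p M : ℕ) : ℕ := p * ∏ f ∈ Finset.Icc 1 M, (p ^ f - 1)

/-- The product of `p` and of all `p ^ (2 f) - 1` with `1 ≤ f ≤ M`. -/
def badDickson (p M : ℕ) : ℕ := p * ∏ f ∈ Finset.Icc 1 M, (p ^ (2 * f) - 1)

/-- The universal period: the product over `1 ≤ f ≤ M` of `(q ^ 2)! (q ^ 2 - 1) (q ^ 2 - q) p ^ (M + 1)`,
`q = p ^ f`. -/
def period (p M : ℕ) : ℕ :=
  ∏ f ∈ Finset.Icc 1 M, Nat.factorial ((p ^ f) ^ 2) *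
    ((((p ^ f) ^ 2 - 1) * ((p ^ f) ^ 2 - p ^ f)) * p ^ (M + 1))

/-- Compositions of affine polynomials, of powers with exponents prime to `b` and of Dickson polynomials of
prime degrees prime to `c`. -/
inductive Exceptional {K : Type} [Field K] (b c : ℕ) : K[X] → Prop
  | affine (a e : K) (ha : a ≠ 0) : Exceptional b c (C a * X + C e)
  | power (m : ℕ) (hm : 1 ≤ m) (h : Nat.Coprime m b) : Exceptional b c (X ^ m)
  | dickson (l : ℕ) (a : K) (hl : l.Prime) (h : Nat.Coprime l c) : Exceptional b c (dickson 1 a l)
  | comp (F G : K[X]) (hF : Exceptional b c F) (hG : Exceptional b c G) : Exceptional b c (F.comp G)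

/-- The generalized Hénon map `f (x, y) = (y, F (y) - δ x)` on the plane over the algebraic closure. -/
noncomputable def henon {K : Type} [Field K] (F : K[X]) (δ : K)
    (P : AlgebraicClosure K × AlgebraicClosure K) : AlgebraicClosure K × AlgebraicClosure K :=
  (P.2, aeval P.2 F - algebraMap K (AlgebraicClosure K) δ * P.1)

/-- The periodic points `P` with `[K (P) : K] ≤ B`. -/
def periodic {K : Type} [Field K] (F : K[X]) (δ : K) (B : ℕ) :
    Set (AlgebraicClosure K × AlgebraicClosure K) :=
  {P | (∃ n : ℕ, 1 ≤ n ∧ (henon F δ)^[n] P = P) ∧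
    Module.finrank K (IntermediateField.adjoin K {P.1, P.2}) ≤ B}

open Pool.Agent.N236.UB Pool.Agent.U965.ET

theorem exc_ep {K : Type} [Field K] {b c : ℕ} {F : K[X]} (h : Exceptional b c F) : EP b c F := by
  induction h with
  | affine a e ha => exact EP.affine a e ha
  | power m hm h => exact EP.power m hm h
  | dickson l a hl h => exact EP.dickson l a hl h
  | comp F G hF hG ihF ihG => exact EP.comp F G ihF ihG

theorem su (p M : ℕ) : Su p M (bad p M) (badDickson p M) := by
  refine ⟨Dvd.intro _ rfl, Dvd.intro _ rfl, fun f h1 h2 => ⟨?_, ?_⟩⟩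
  · exact (Finset.dvd_prod_of_mem (fun f => p ^ f - 1) (Finset.mem_Icc.mpr ⟨h1, h2⟩)).mul_left _
  · exact (Finset.dvd_prod_of_mem (fun f => p ^ (2 * f) - 1) (Finset.mem_Icc.mpr ⟨h1, h2⟩)).mul_left _

theorem period_two : period 2 1 = 576 := by
  unfold period
  simp [Nat.factorial]

theorem result :
    (∀ (p : ℕ) [Fact p.Prime] (D B : ℕ) (K : Type) [Field K], LocalDegreeLe K p D →
      ∀ (F : K[X]) (δ : K), δ ≠ 0 → Exceptional (bad p (D * B)) (badDickson p (D * B)) F →
        (∀ P ∈ periodic F δ B, (henon F δ)^[period p (D * B)] P = P) ∧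
        (2 ≤ F.natDegree → (periodic F δ B).Finite ∧
          (periodic F δ B).ncard ≤ F.natDegree ^ period p (D * B))) ∧
    (∀ (p : ℕ) [Fact p.Prime] (K : Type) [Field K] [Algebra ℚ K] [Algebra.IsAlgebraic ℚ K],
      (∀ x : K, ((minpoly ℚ x).map (algebraMap ℚ ℚ_[p])).Splits) → LocalDegreeLe K p 1) ∧
    (∀ (p : ℕ) [Fact p.Prime] (K : Type) [Field K] [NumberField K],
      LocalDegreeLe K p (Module.finrank ℚ K)) ∧
    (∀ (p : ℕ) [Fact p.Prime] (ι : Type) [Countable ι] (K : Type) [Field K]
      [Algebra (FractionRing (MvPolynomial ι ℚ)) K]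
      [FiniteDimensional (FractionRing (MvPolynomial ι ℚ)) K],
      LocalDegreeLe K p (Module.finrank (FractionRing (MvPolynomial ι ℚ)) K)) := by
  refine ⟨?_, ?_, fun p _ K _ _ => locDeg_nf K le_rfl p, fun p _ ι _ K _ _ _ => locDeg_ff ι K le_rfl p⟩
  · intro p hp D B K _ hK F δ hδ hF
    have hN : period p (D * B) = NN p (D * B) := rfl
    have h := exc_ep hF
    refine ⟨fun P hP => ?_, fun hd => ?_⟩
    · rw [hN]
      exact henon_fix (p := p) (D := D) (B := B) hK (su p (D * B)) h δ P hP.1 hP.2
    · rw [hN]
      exact henon_cnt (p := p) (D := D) (B := B) hK (su p (D * B)) hd h δ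
  · intro p hp K _ _ _ hsp
    obtain ⟨φ⟩ : Nonempty (K →ₐ[ℚ] ℚ_[p]) := by
      apply IntermediateField.nonempty_algHom_of_splits
      intro x
      exact ⟨(Algebra.IsAlgebraic.isAlgebraic x).isIntegral, hsp x⟩
    exact ⟨ℚ_[p], inferInstance, inferInstance, inferInstance, (Module.finrank_self _).le, ⟨φ.toRingHom⟩⟩

end Pool.Agent.Results.MP_0e6b5f_nt.HenonOnePlace
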