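import Pool.Agent.Results.MP_0e6b5f_nt.RandomOrbits
import Pool.Agent.U125.NO.Seq

/-!
# MP_0e6b5f_nt: the degrees of the periodic points of Hénon maps along every normal orbit of coefficients

`Exceptional K D d` is the set of the starting result `PeriodicDegrees`: it consists of the vectors
`(c₀, …, c_(d+1))` of integers of the number field `K` such that, for some `δ ∈ O_K[1/D]`, some periodic
point over the algebraic closure of the Hénon map

  `f(x, y) = (y, φ(y) - δ x)`,  `φ = (c₁ + c₂ y + … + c_(d+1) y^d) / c₀`,

has a degree over `K` which is not divisible by `d` (or `c₀ = 0`, or `deg φ ≠ d`). `vector ω d x` (starting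
result `RandomOrbits`) is the vector of the integers `c_i = ∑_j x (i, j) ω_j` for an integral basis `ω` of `K`.

**Theorem.** Let `x_0, x_1, …` be a normal orbit in `ℤ^κ` (`NormalOrbit`): the orbit of an integral vector
under a finite family of integral affine maps along ANY normal sequence of indices, the family being wide
(for all `q` prime to some `q₀` the maps are bijective modulo `q`, and the vector can be moved to at least the
proportion `ε > 0`, not depending on `q`, of all vectors modulo `q`). There is ONE set `E` of times of density
zero such that for ALL number fields `K`, all integral bases `ω`, all `d ≥ 2`, all `D ≠ 0` in `O_K` and all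
injective `f` from the set of the pairs `(i, j)` to `κ` the vector `c_i = ∑_j x_n(f(i, j)) ω_j` is not
exceptional for all but finitely many `n ∉ E`.

Examples (second part): (1) `x_n = (⌊b ^ n ξ_l⌋)_l` for ANY vector `ξ` of real numbers which is normal to the
base `b ≥ 2`; (2) the orbit of any vector `v ≠ 0` along ANY normal word in matrices which generate the special
linear group modulo all `q` prime to some `q₀` (generators of a thin group); (3) vectors of integers whose
digits are chosen from a restricted set of vectors.

The starting result `RandomOrbits` has the orbits of thin groups for ALMOST ALL words, with density zero for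
each number field and degree; `MetricSequences` has almost all real numbers.

Proof. The local criterion of the starting library (`N681.HO`) and its pronull theorem; normal orbits visit a
pronull set only at times of density zero (engine `Pool.Agent.U125.NO` of helper125); the criterion depends
only on the structure constants of the integral basis, so that there are countably many conditions.
-/

set_option autoImplicit false

namespace Pool.Agent.Results.MP_0e6b5f_nt.NormalSequences

open NumberField Module Filter Topology
open Pool.Agent.U125.NO (NormalOrbit Examples examples)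
open Pool.Agent.Results.MP_0e6b5f_nt.PeriodicDegrees (Exceptional)
open Pool.Agent.Results.MP_0e6b5f_nt.RandomOrbits (vector not_exceptional)

/-- The set `E` of natural numbers has density zero. -/
def Null (E : Set ℕ) : Prop :=
  Tendsto (fun N : ℕ => (({m : ℕ | m < N ∧ m ∈ E}.ncard : ℕ) : ℝ) / (N : ℝ)) atTop (𝓝 0)

/-- The countable set of conditions. -/
def Idx (κ : Type) : Type :=
  Σ cd : (Σ m : ℕ, (Fin m × Fin m × Fin m → ℤ)), Σ dM : ℕ × ℕ,
    {f : Fin (dM.1 + 2) × Fin cd.1 → κ // 2 ≤ dM.1 ∧ Function.Injective f}

instance (κ : Type) [Finite κ] : Countable (Idx κ) := by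
  unfold Idx
  infer_instance

theorem result :
    (∀ (κ : Type) [Fintype κ] [DecidableEq κ] [Nonempty κ] (x : ℕ → κ → ℤ), NormalOrbit x →
      ∃ E : Set ℕ, Null E ∧ ∀ (K : Type) [Field K] [NumberField K] (m : ℕ)
        (ω : Module.Basis (Fin m) ℤ (𝓞 K)) (d : ℕ), 2 ≤ d →
        ∀ (D : 𝓞 K), D ≠ 0 → ∀ f : Fin (d + 2) × Fin m → κ, Function.Injective f →
          {n : ℕ | n ∉ E ∧ vector ω d (fun q => x n (f q)) ∈ Exceptional.{0, 0} K D d}.Finite) ∧
    ∀ (κ : Type) [Fintype κ] [DecidableEq κ], Examples κ := by
  refine ⟨?_, fun κ _ _ => examples κ⟩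
  intro κ _ _ _ x hx
  obtain ⟨E, hE1, hE2⟩ := hx.avoids.diag (K := Idx κ)
    (fun a y => y ∈ Pool.Agent.N681.HO.Bs a.1 a.2.1.1 a.2.1.2 a.2.2.1)
    (fun a => Pool.Agent.N681.HO.pronull_Bs Pool.Agent.N24.RW.crit Pool.Agent.N24.RW.clo a.1 a.2.1.1
      a.2.1.2 a.2.2.2.1 a.2.2.1 a.2.2.2.2)
  refine ⟨E, hE1, fun K _ _ m ω d hd D hD f hf => ?_⟩
  refine (hE2 ⟨⟨m, Pool.Agent.N681.HO.code ω⟩, (d, (Algebra.norm ℤ D).natAbs), f, hd, hf⟩).subset ?_
  rintro n ⟨hn, hc⟩
  exact ⟨hn, K, inferInstance, inferInstance, ω, rfl, fun hg => not_exceptional hd hD _ hg hc⟩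

end Pool.Agent.Results.MP_0e6b5f_nt.NormalSequences
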